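import Pool.Agent.MP_c853c5_nt.DV.F4924.P0
import Pool.Agent.MP_c853c5_nt.DV.L34

set_option autoImplicit false
set_option maxRecDepth 100000

namespace Pool.Agent.MP_c853c5_nt.X.F4924

open Pool.Agent.MP_c853c5_nt.REG

open Pool.Agent.MP_c853c5_nt.REG.CT

theorem g0 : p0.Good34 492400 := Or.inr (PP.of_chk4 2 3 [(1,0,[2,2]),(1,0,[0,0,1]),(37,18,[0,11,0,0,0,0,18]),(1,0,[0,0,0,0,1]),(1,0,[0,0,0,1]),(37,5,[0,1,0,0,0,0,5]),(1,0,[0,0,0,0,1]),(1,0,[0,0,0,0,0,1]),(1,0,[0,0,0,0,0,0,1]),(1,0,[0,0,0,0,0,0,0,1]),(1,0,[0,0,0,0,0,0,0,0,1])] (by decide +kernel))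
theorem g1 : p1.Good34 492400 := Or.inr (PP.of_chk4 2 2 [(1,0,[2,2]),(1,0,[0,0,1]),(11,54,[0,13,0,0,0,18]),(1,0,[0,0,0,0,1]),(1,0,[0,0,0,1]),(11,15,[0,3,0,0,0,5]),(1,0,[0,0,0,0,1]),(1,0,[0,0,0,0,0,1]),(11,70,[0,14,0,0,0,27]),(1,0,[0,0,0,0,0,0,1]),(1,0,[0,0,0,0,0,0,0,1])] (by decide +kernel))
theorem g2 : p2.Good34 492400 := Or.inr (PP.of_chk4 3 3 [(1,0,[2,2]),(29,0,[0,3,2]),(51,40,[0,13,0,0,0,40]),(1,0,[0,0,0,1]),(1,0,[0,0,1]),(51,7,[0,1,0,0,0,7]),(1,0,[0,0,0,1]),(1,0,[0,0,0,0,1]),(1,0,[0,0,0,0,0,1]),(1,0,[0,0,0,0,0,0,1]),(1,0,[0,0,0,0,0,0,0,1])] (by decide +kernel))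
theorem g3 : p3.Good34 492400 := Or.inr (PP.of_chk4 2 4 [(1,0,[2,2]),(1,0,[0,0,1]),(47,18,[0,13,0,0,0,0,18]),(1,0,[0,0,0,0,1]),(1,0,[0,0,0,1]),(47,5,[0,1,0,0,0,0,5]),(1,0,[0,0,0,0,1]),(1,0,[0,0,0,0,0,1]),(1,0,[0,0,0,0,0,0,1]),(1,0,[0,0,0,0,0,0,0,1]),(1,0,[0,0,0,0,0,0,0,0,1])] (by decide +kernel))
theorem g4 : p4.Good34 492400 := Or.inr (PP.of_chk4 3 2 [(1,0,[2,2]),(29,0,[0,3,0,2]),(1,0,[0,0,1]),(1,0,[0,0,0,0,1]),(1,0,[0,0,0,1]),(19,3,[0,0,3,0,0,1]),(1,0,[0,0,0,0,1]),(1,0,[0,0,0,0,0,1]),(19,14,[0,0,14,0,0,11]),(1,0,[0,0,0,0,0,0,1]),(1,0,[0,0,0,0,0,0,0,1])] (by decide +kernel))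
theorem g5 : p5.Good34 492400 := Or.inr (PP.of_chk4 3 4 [(1,0,[2,2]),(29,0,[0,3,2]),(13,8,[0,3,0,0,0,8]),(1,0,[0,0,0,1]),(1,0,[0,0,1]),(65,7,[0,1,0,0,0,7]),(1,0,[0,0,0,1]),(1,0,[0,0,0,0,1]),(1,0,[0,0,0,0,0,1]),(1,0,[0,0,0,0,0,0,1]),(1,0,[0,0,0,0,0,0,0,1])] (by decide +kernel))
theorem g6 : p6.Good34 492400 := Or.inr (PP.of_chk4 2 5 [(11,0,[18,114,0,0,0,4]),(1,0,[0,1]),(11,4,[0,15,0,0,0,4]),(1,0,[0,0,0,1]),(1,0,[0,0,1]),(11,1,[0,1,0,0,0,1]),(1,0,[0,0,0,1]),(1,0,[0,0,0,0,1]),(1,0,[0,0,0,0,0,1]),(1,0,[0,0,0,0,0,0,1]),(1,0,[0,0,0,0,0,0,0,1])] (by decide +kernel))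
theorem g7 : p7.Good34 492400 := Or.inr (PP.of_chk4 3 5 [(1,0,[2,2]),(29,0,[0,3,2]),(79,40,[0,17,0,0,0,40]),(1,0,[0,0,0,1]),(1,0,[0,0,1]),(79,7,[0,1,0,0,0,7]),(1,0,[0,0,0,1]),(1,0,[0,0,0,0,1]),(1,0,[0,0,0,0,0,1]),(1,0,[0,0,0,0,0,0,1]),(1,0,[0,0,0,0,0,0,0,1])] (by decide +kernel))
theorem g8 : p8.Good34 492400 := Or.inr (PP.of_chk4 3 6 [(1,0,[2,2]),(29,0,[0,3,2]),(93,40,[0,19,0,0,0,40]),(1,0,[0,0,0,1]),(1,0,[0,0,1]),(93,7,[0,1,0,0,0,7]),(1,0,[0,0,0,1]),(1,0,[0,0,0,0,1]),(1,0,[0,0,0,0,0,1]),(1,0,[0,0,0,0,0,0,1]),(1,0,[0,0,0,0,0,0,0,1])] (by decide +kernel))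
theorem g9 : p9.Good34 492400 := Or.inr (PP.of_chk4 2 6 [(37,0,[42,134,0,0,32]),(37,2,[0,13,0,0,2]),(37,14,[0,17,0,0,14]),(1,0,[0,0,1]),(1,0,[0,1]),(37,3,[0,1,0,0,3]),(1,0,[0,0,1]),(1,0,[0,0,0,1]),(1,0,[0,0,0,0,1]),(1,0,[0,0,0,0,0,1]),(1,0,[0,0,0,0,0,0,1])] (by decide +kernel))
theorem g10 : p10.Good34 492400 := Or.inr (PP.of_chk4 3 7 [(57,0,[56,214,0,0,58]),(19,1,[0,5,0,0,1]),(19,9,[0,7,0,0,9]),(1,0,[0,0,1]),(1,0,[0,1]),(57,4,[0,1,0,0,4]),(1,0,[0,0,1]),(1,0,[0,0,0,1]),(1,0,[0,0,0,0,1]),(1,0,[0,0,0,0,0,1]),(1,0,[0,0,0,0,0,0,1])] (by decide +kernel))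
theorem g11 : p11.Good34 492400 := Or.inr (PP.of_chk4 4 4 [(1,0,[0,1]),(11,0,[0,0,1,2]),(1,0,[0,0,1]),(1,0,[0,0,0,0,1]),(1,0,[0,0,0,1]),(55,6,[0,1,6]),(1,0,[0,0,0,0,1]),(7,0,[0,1,0,0,0,29]),(55,47,[0,17,47]),(1,0,[0,0,0,0,0,1]),(1,0,[0,0,0,0,0,0,1])] (by decide +kernel))
theorem g12 : p12.Good34 492400 := Or.inr (PP.of_chk4 5 4 [(1,0,[0,1]),(11,0,[0,0,1,10]),(1,0,[0,0,1]),(1,0,[0,0,0,1]),(11,0,[0,0,1,65]),(78,7,[0,1,7]),(1,0,[0,0,0,1]),(8,0,[0,1,0,0,33]),(78,55,[0,19,55]),(1,0,[0,0,0,0,1]),(1,0,[0,0,0,0,0,1])] (by decide +kernel))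
theorem g13 : p13.Good34 492400 := Or.inr (PP.of_chk4 3 4 [(1,0,[0,1]),(3,5,[0,1,2]),(1,15,[0,3,4]),(1,0,[0,0,0,1]),(1,0,[0,0,1]),(9,20,[0,4,5]),(1,0,[0,0,0,1]),(6,0,[0,1,0,0,25]),(3,52,[0,11,13]),(1,0,[0,0,0,0,1]),(1,0,[0,0,0,0,0,1])] (by decide +kernel))
theorem g14 : p14.Good34 492400 := Or.inr (PP.of_chk4 6 4 [(1,0,[0,1]),(13,0,[0,0,1,12]),(1,0,[0,0,1]),(1,0,[0,0,0,1]),(13,0,[0,0,1,90]),(105,8,[0,1,8]),(1,0,[0,0,0,1]),(9,0,[0,1,0,0,37]),(5,3,[0,1,3]),(1,0,[0,0,0,0,1]),(1,0,[0,0,0,0,0,1])] (by decide +kernel))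
theorem g15 : p15.Good34 492400 := Or.inr (PP.of_chk4 3 8 [(65,0,[72,242,0,0,58]),(65,3,[0,17,0,0,3]),(65,27,[0,23,0,0,27]),(1,0,[0,0,1]),(1,0,[0,1]),(65,4,[0,1,0,0,4]),(1,0,[0,0,1]),(1,0,[0,0,0,1]),(1,0,[0,0,0,0,1]),(1,0,[0,0,0,0,0,1]),(1,0,[0,0,0,0,0,0,1])] (by decide +kernel))
theorem g16 : p16.Good34 492400 := Or.inr (PP.of_chk4 7 4 [(1,0,[0,1]),(15,0,[0,0,1,14]),(1,0,[0,0,1]),(1,0,[0,0,0,1]),(15,0,[0,0,1,119]),(136,9,[0,1,9]),(1,0,[0,0,0,1]),(10,0,[0,1,0,0,41]),(136,71,[0,23,71]),(1,0,[0,0,0,0,1]),(1,0,[0,0,0,0,0,1])] (by decide +kernel))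
theorem a0 : t0.All (PP.Good34 492400) :=
  ⟨⟨⟨⟨g0, g1⟩, ⟨g2, g3⟩⟩, ⟨⟨g4, g5⟩, ⟨g6, g7⟩⟩⟩, ⟨⟨⟨g8, g9⟩, ⟨g10, g11⟩⟩, ⟨⟨g12, g13⟩, ⟨g14, ⟨g15, g16⟩⟩⟩⟩⟩

end Pool.Agent.MP_c853c5_nt.X.F4924
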