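import Pool.Agent.MP_c853c5_nt.X.Chk

set_option autoImplicit false
set_option maxRecDepth 100000

namespace Pool.Agent.MP_c853c5_nt.X.F4924

open Pool.Agent.MP_c853c5_nt.REG

noncomputable def p0 : PP := ⟨3,[(0x5007000,2799300),(0x1001000,537900),(0x3001000,1522700),(0x1000000,500000),(0x1004,2030300),(0x7001,999900),(0x1,504500),(0x1000001,996900)]⟩
noncomputable def p1 : PP := ⟨3,[(0x5007000,2799300),(0x1001000,537900),(0x3001000,1522700),(0x1000000,500000),(0x1003,1522700),(0x1,504500),(0x1000001,996900)]⟩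
noncomputable def p2 : PP := ⟨3,[(0x7009000,3814500),(0x4001000,2030300),(0x1000000,500000),(0x1004,2030300),(0x7001,999900),(0x1,504500),(0x1000001,996900)]⟩
noncomputable def p3 : PP := ⟨3,[(0x5007000,2799300),(0x1001000,537900),(0x3001000,1522700),(0x1000000,500000),(0x1005,2537900),(0x9001,999900),(0x1,504500),(0x1000001,996900)]⟩
noncomputable def p4 : PP := ⟨3,[(0x7009000,3814500),(0x1007000,999900),(0x4001000,2030300),(0x1000000,500000),(0x1003,1522700),(0x1,504500),(0x1000001,996900)]⟩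
noncomputable def p5 : PP := ⟨3,[(0x7009000,3814500),(0x4001000,2030300),(0x1000000,500000),(0x1005,2537900),(0x9001,999900),(0x1,504500),(0x1000001,996900)]⟩
noncomputable def p6 : PP := ⟨3,[(0x1001000,537900),(0x3001000,1522700),(0x1000000,500000),(0x1006,3045500),(0xb001,999900),(0x1,504500),(0x1000001,996900)]⟩
noncomputable def p7 : PP := ⟨3,[(0x7009000,3814500),(0x4001000,2030300),(0x1000000,500000),(0x1006,3045500),(0xb001,999900),(0x1,504500),(0x1000001,996900)]⟩
noncomputable def p8 : PP := ⟨3,[(0x7009000,3814500),(0x4001000,2030300),(0x1000000,500000),(0x1007,3553100),(0xd001,999900),(0x1,504500),(0x1000001,996900)]⟩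
noncomputable def p9 : PP := ⟨3,[(0x3001000,1522700),(0x1000000,500000),(0x1007,3553100),(0xd001,999900),(0x1,504500),(0x1000001,996900)]⟩
noncomputable def p10 : PP := ⟨3,[(0x4001000,2030300),(0x1000000,500000),(0x1008,4060700),(0xf001,999900),(0x1,504500),(0x1000001,996900)]⟩
noncomputable def p11 : PP := ⟨3,[(0x7006,3121500),(0x1009000,999900),(0x5001000,2537900),(0x1000000,500000),(0x1,504500),(0x1000001,996900)]⟩
noncomputable def p12 : PP := ⟨3,[(0x8007,3644300),(0x100b000,999900),(0x1000000,500000),(0x1,504500),(0x1000001,996900)]⟩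
noncomputable def p13 : PP := ⟨3,[(0x6005,2598700),(0x4001000,2030300),(0x1000000,500000),(0x1,504500),(0x1000001,996900)]⟩
noncomputable def p14 : PP := ⟨3,[(0x9008,4167100),(0x100d000,999900),(0x1000000,500000),(0x1,504500),(0x1000001,996900)]⟩
noncomputable def p15 : PP := ⟨3,[(0x4001000,2030300),(0x1000000,500000),(0x1009,4568300),(0x11001,999900),(0x1,504500),(0x1000001,996900)]⟩
noncomputable def p16 : PP := ⟨3,[(0xa009,4689900),(0x100f000,999900),(0x1000000,500000),(0x1,504500),(0x1000001,996900)]⟩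
noncomputable def t0 : BT PP := (.nd 8 (.nd 4 (.nd 2 (.nd 1 (.lf p0) (.lf p1)) (.nd 1 (.lf p2) (.lf p3))) (.nd 2 (.nd 1 (.lf p4) (.lf p5)) (.nd 1 (.lf p6) (.lf p7)))) (.nd 4 (.nd 2 (.nd 1 (.lf p8) (.lf p9)) (.nd 1 (.lf p10) (.lf p11))) (.nd 2 (.nd 1 (.lf p12) (.lf p13)) (.nd 1 (.lf p14) (.nd 1 (.lf p15) (.lf p16))))))

end Pool.Agent.MP_c853c5_nt.X.F4924
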