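import Pool.Agent.MP_c853c5_nt.DV.F4924.P0
import Pool.Agent.MP_c853c5_nt.DU.P4924.Tab

set_option autoImplicit false
set_option maxRecDepth 100000

namespace Pool.Agent.MP_c853c5_nt.X.F4924

open Pool.Agent.MP_c853c5_nt.REG

noncomputable def tab : BT PP := .nd 495 P4924.tab t0

end Pool.Agent.MP_c853c5_nt.X.F4924
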