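import Pool.Agent.MP_c853c5_nt.DV.F4924.Tab
import Pool.Agent.MP_c853c5_nt.DV.F4924.C0
import Pool.Agent.MP_c853c5_nt.DU.P4924.TabOK

set_option autoImplicit false
set_option maxRecDepth 100000

namespace Pool.Agent.MP_c853c5_nt.X.F4924

open Pool.Agent.MP_c853c5_nt.REG

theorem tabOK : tab.All (PP.Good34 492400) :=
  ⟨P4924.tabOK.imp fun _ => Or.inl, a0⟩

end Pool.Agent.MP_c853c5_nt.X.F4924
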